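import Mathlib

/-!
In a topological group which is covered by countably many translates of every neighbourhood of the
identity, every sequence of neighbourhoods of the identity consists of neighbourhoods for a coarser
first countable group topology.
-/

set_option autoImplicit false

open Set Filter Topology Pointwise

namespace Pool.Agent.Y340.MH

universe u

variable {G : Type u} [Group G]

/-- Terms describing the members of a countable family of neighbourhoods. -/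
inductive Tm : Type
  | base (n : ℕ) : Tm
  | mul (t : Tm) : Tm
  | inv (t : Tm) : Tm
  | conj (t : Tm) (k : ℕ) : Tm
  | inter (s t : Tm) : Tm
deriving Countable

/-- `G` is covered by countably many left translates of every neighbourhood of the identity. -/
def Narrow (G : Type u) [Group G] [TopologicalSpace G] : Prop :=
  ∀ V ∈ 𝓝 (1 : G), ∃ D : ℕ → G, ∀ g, ∃ k, (D k)⁻¹ * g ∈ V

theorem conj_family [TopologicalSpace G] [IsTopologicalGroup G] (hN : Narrow G)
    {V : Set G} (hV : V ∈ 𝓝 (1 : G)) :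
    ∃ W : ℕ → Set G, (∀ k, W k ∈ 𝓝 (1 : G)) ∧ ∀ g, ∃ k, ∀ x ∈ W k, g * x * g⁻¹ ∈ V := by
  have h1 : Tendsto (fun p : G × G × G => p.1 * p.2.1 * p.2.2⁻¹) (𝓝 1) (𝓝 1) := by
    have hc : Continuous (fun p : G × G × G => p.1 * p.2.1 * p.2.2⁻¹) := by fun_prop
    have := hc.tendsto 1
    simpa using this
  have h2 := h1 hV
  rw [mem_map, show (1 : G × G × G) = (1, 1, 1) from rfl, nhds_prod_eq, nhds_prod_eq,
    mem_prod_iff] at h2
  obtain ⟨A, hA, BC, hBC, hABC⟩ := h2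
  obtain ⟨B, hB, C, hC, hBCs⟩ := mem_prod_iff.1 hBC
  set W0 := A ∩ B ∩ C with hW0
  have hW0n : W0 ∈ 𝓝 (1 : G) := inter_mem (inter_mem hA hB) hC
  obtain ⟨D, hD⟩ := hN (W0⁻¹) (inv_mem_nhds_one G hW0n)
  refine ⟨fun k => (fun x => (D k)⁻¹ * x * D k) ⁻¹' W0, fun k => ?_, fun g => ?_⟩
  · have hc : Tendsto (fun x : G => (D k)⁻¹ * x * D k) (𝓝 1) (𝓝 1) := by
      have hc : Continuous (fun x : G => (D k)⁻¹ * x * D k) := by fun_prop
      have := hc.tendsto 1
      simpa using this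
    exact hc hW0n
  · obtain ⟨k, hk⟩ := hD g⁻¹
    refine ⟨k, fun x hx => ?_⟩
    have hw : g * D k ∈ W0 := by
      have : ((D k)⁻¹ * g⁻¹)⁻¹ ∈ W0 := hk
      simpa [mul_inv_rev] using this
    have hx' : (D k)⁻¹ * x * D k ∈ W0 := hx
    have h3 : ((g * D k, ((D k)⁻¹ * x * D k, g * D k)) : G × G × G) ∈
        (fun p : G × G × G => p.1 * p.2.1 * p.2.2⁻¹) ⁻¹' V :=
      hABC ⟨hw.1.1, hBCs ⟨hx'.1.2, hw.2⟩⟩
    have h4 : g * D k * ((D k)⁻¹ * x * D k) * (g * D k)⁻¹ ∈ V := h3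
    have h5 : g * D k * ((D k)⁻¹ * x * D k) * (g * D k)⁻¹ = g * x * g⁻¹ := by group
    rwa [h5] at h4

/-- The coarser first countable group topology. -/
theorem coarse (G : Type u) [Group G] [t : TopologicalSpace G] [IsTopologicalGroup G]
    (hN : Narrow G) (V : ℕ → Set G) (hV : ∀ n, V n ∈ 𝓝 (1 : G)) :
    ∃ τ : TopologicalSpace G, @IsTopologicalGroup G τ _ ∧ @FirstCountableTopology G τ ∧
      t ≤ τ ∧ ∀ n, V n ∈ @nhds G τ 1 := by
  classical
  have hmul : ∀ V : {V : Set G // V ∈ 𝓝 (1 : G)}, ∃ W : {V : Set G // V ∈ 𝓝 (1 : G)},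
      W.1 * W.1 ⊆ V.1 := by
    rintro ⟨V, hV⟩
    obtain ⟨W, hW, hWV⟩ := exists_nhds_one_split hV
    refine ⟨⟨W, hW⟩, ?_⟩
    rintro _ ⟨a, ha, b, hb, rfl⟩
    exact hWV a ha b hb
  have hinv : ∀ V : {V : Set G // V ∈ 𝓝 (1 : G)}, ∃ W : {V : Set G // V ∈ 𝓝 (1 : G)},
      W.1 ⊆ (fun x => x⁻¹) ⁻¹' V.1 := fun V =>
    ⟨⟨_, inv_mem_nhds_one G V.2⟩, subset_rfl⟩
  have hconj : ∀ V : {V : Set G // V ∈ 𝓝 (1 : G)}, ∃ W : ℕ → {V : Set G // V ∈ 𝓝 (1 : G)},
      ∀ g, ∃ k, (W k).1 ⊆ (fun x => g * x * g⁻¹) ⁻¹' V.1 := by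
    intro V
    obtain ⟨W, hW, h⟩ := conj_family hN V.2
    refine ⟨fun k => ⟨W k, hW k⟩, fun g => ?_⟩
    obtain ⟨k, hk⟩ := h g
    exact ⟨k, fun x hx => hk x hx⟩
  choose M hM using hmul
  choose J hJ using hinv
  choose K hK using hconj
  let I : Tm → {V : Set G // V ∈ 𝓝 (1 : G)} := fun t => Tm.rec (fun n => ⟨V n, hV n⟩)
    (fun _ a => M a) (fun _ a => J a) (fun _ k a => K a k)
    (fun _ _ a b => ⟨a.1 ∩ b.1, inter_mem a.2 b.2⟩) t
  let B : GroupFilterBasis G :=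
    { sets := range fun t => (I t).1
      nonempty := ⟨_, mem_range_self (Tm.base 0)⟩
      inter_sets := by
        rintro _ _ ⟨s, rfl⟩ ⟨t, rfl⟩
        exact ⟨_, ⟨Tm.inter s t, rfl⟩, subset_rfl⟩
      one' := by
        rintro _ ⟨t, rfl⟩
        exact mem_of_mem_nhds (I t).2
      mul' := by
        rintro _ ⟨t, rfl⟩
        exact ⟨_, ⟨Tm.mul t, rfl⟩, hM (I t)⟩
      inv' := by
        rintro _ ⟨t, rfl⟩
        exact ⟨_, ⟨Tm.inv t, rfl⟩, hJ (I t)⟩
      conj' := by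
        rintro g _ ⟨t, rfl⟩
        obtain ⟨k, hk⟩ := hK (I t) g
        exact ⟨_, ⟨Tm.conj t k, rfl⟩, hk⟩ }
  have hsets : B.sets.Countable := countable_range _
  have hN1 : @nhds G B.topology 1 = B.toFilterBasis.filter := by
    rw [GroupFilterBasis.nhds_one_eq]
  have hgrp : @IsTopologicalGroup G B.topology _ := B.isTopologicalGroup
  refine ⟨B.topology, hgrp, ?_, ?_, ?_⟩
  · let _ := B.topology
    have _ := hgrp
    have hcg : (𝓝 (1 : G)).IsCountablyGenerated := by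
      have hb := B.nhds_one_hasBasis
      exact (HasCountableBasis.isCountablyGenerated ⟨hb, hsets⟩)
    refine ⟨fun a => ?_⟩
    have : 𝓝 a = Filter.map (fun x => a * x) (𝓝 1) := by
      rw [map_mul_left_nhds_one]
    rw [this]
    infer_instance
  · refine le_of_nhds_le_nhds fun x => ?_
    rw [B.nhds_eq, GroupFilterBasis.N, ← map_mul_left_nhds_one x]
    refine Filter.map_mono ?_
    rw [B.toFilterBasis.hasBasis.ge_iff]
    rintro _ ⟨t, rfl⟩
    exact (I t).2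
  · intro n
    exact B.mem_nhds_one ⟨Tm.base n, rfl⟩

end Pool.Agent.Y340.MH
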