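import Pool.Agent.Y340.MH.Main

/-!
The bounding number, and groups generated by few K-analytic sets.
-/

set_option autoImplicit false

open Set Filter Topology Pointwise Cardinal

namespace Pool.Agent.Y340.MH

universe u

/-- The bounding number `𝔟`: the least size of a family of functions `ℕ → ℕ` which is not
eventually dominated by one function. -/
noncomputable def bNumber : Cardinal.{0} :=
  sInf {κ | ∃ S : Set (ℕ → ℕ), #S = κ ∧ ¬ ∃ k : ℕ → ℕ, ∀ h ∈ S, ∀ᶠ n in atTop, h n ≤ k n}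

theorem bNumber_le {S : Set (ℕ → ℕ)}
    (hS : ¬ ∃ k : ℕ → ℕ, ∀ h ∈ S, ∀ᶠ n in atTop, h n ≤ k n) : bNumber ≤ #S :=
  csInf_le' ⟨S, rfl, hS⟩

theorem exists_unbounded : ∃ S : Set (ℕ → ℕ), #S = bNumber ∧
    ¬ ∃ k : ℕ → ℕ, ∀ h ∈ S, ∀ᶠ n in atTop, h n ≤ k n := by
  have hne : {κ | ∃ S : Set (ℕ → ℕ), #S = κ ∧
      ¬ ∃ k : ℕ → ℕ, ∀ h ∈ S, ∀ᶠ n in atTop, h n ≤ k n}.Nonempty := by
    refine ⟨_, univ, rfl, ?_⟩
    rintro ⟨k, hk⟩
    obtain ⟨n, hn⟩ := (hk (fun n => k n + 1) (mem_univ _)).exists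
    omega
  exact csInf_mem hne

theorem aleph0_lt_bNumber : ℵ₀ < bNumber := by
  obtain ⟨S, hS, hun⟩ := exists_unbounded
  rw [← hS]
  by_contra hcon
  push Not at hcon
  have hc : S.Countable := by rwa [← Cardinal.le_aleph0_iff_set_countable]
  rcases S.eq_empty_or_nonempty with rfl | hne
  · exact hun ⟨fun _ => 0, by simp⟩
  obtain ⟨e, rfl⟩ := hc.exists_eq_range hne
  refine hun ⟨fun n => (Finset.range (n + 1)).sup fun i => e i n, ?_⟩
  rintro _ ⟨i, rfl⟩
  filter_upwards [eventually_ge_atTop i] with n hn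
  exact Finset.le_sup (f := fun i => e i n) (Finset.mem_range.2 (by omega))

theorem dominated {ι : Type u} (hι : #ι < Cardinal.lift.{u} bNumber) (h : ι → ℕ → ℕ) :
    ∃ k : ℕ → ℕ, ∀ i, ∀ᶠ n in atTop, h i n ≤ k n := by
  by_contra hcon
  have h1 : bNumber ≤ #(range h) := bNumber_le fun ⟨k, hk⟩ =>
    hcon ⟨k, fun i => hk _ (mem_range_self i)⟩
  have h2 := Cardinal.mk_range_le_lift (f := h)
  rw [Cardinal.lift_uzero] at h2
  exact absurd ((Cardinal.lift_le.{u}.2 h1).trans h2) (not_le.2 hι)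

section

variable {G : Type u} [Group G] [TopologicalSpace G] [IsTopologicalGroup G]

theorem KAnalytic.mul {A B : Set G} (hA : KAnalytic A) (hB : KAnalytic B) :
    KAnalytic (A * B) := by
  obtain ⟨F, hF1, hF2, rfl⟩ := hA
  obtain ⟨E, hE1, hE2, rfl⟩ := hB
  let p : (ℕ → ℕ) → ℕ → ℕ := fun c n => c (2 * n)
  let q : (ℕ → ℕ) → ℕ → ℕ := fun c n => c (2 * n + 1)
  have hp : Continuous p := by fun_prop
  have hq : Continuous q := by fun_prop
  refine ⟨fun c => F (p c) * E (q c), fun c => (hF1 _).mul (hE1 _), fun c O hO hFO => ?_, ?_⟩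
  · obtain ⟨u, v, hu, hv, hFu, hEv, huv⟩ := generalized_tube_lemma (hF1 (p c)) (hE1 (q c))
      (hO.preimage (continuous_mul (M := G))) (by
        rintro ⟨x, y⟩ ⟨hx, hy⟩
        exact hFO (Set.mul_mem_mul hx hy))
    filter_upwards [hp.continuousAt (hF2 _ u hu hFu), hq.continuousAt (hE2 _ v hv hEv)]
      with d hd1 hd2
    rintro _ ⟨x, hx, y, hy, rfl⟩
    exact huv (⟨hd1 hx, hd2 hy⟩ : (x, y) ∈ u ×ˢ v)
  · ext x
    constructor
    · intro hx
      obtain ⟨c, y, hy, z, hz, rfl⟩ := mem_iUnion.1 hx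
      exact Set.mul_mem_mul (mem_iUnion.2 ⟨_, hy⟩) (mem_iUnion.2 ⟨_, hz⟩)
    · rintro ⟨y, hy, z, hz, rfl⟩
      obtain ⟨a, ha⟩ := mem_iUnion.1 hy
      obtain ⟨b, hb⟩ := mem_iUnion.1 hz
      refine mem_iUnion.2 ⟨fun n => if n % 2 = 0 then a (n / 2) else b (n / 2), ?_⟩
      have h1 : p (fun n => if n % 2 = 0 then a (n / 2) else b (n / 2)) = a := by
        funext n
        simp only [p]
        rw [if_pos (by omega)]
        congr 1
        omega
      have h2 : q (fun n => if n % 2 = 0 then a (n / 2) else b (n / 2)) = b := by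
        funext n
        simp only [q]
        rw [if_neg (by omega)]
        congr 1
        omega
      simp only [h1, h2]
      exact Set.mul_mem_mul ha hb

theorem KAnalytic.inv {A : Set G} (hA : KAnalytic A) : KAnalytic A⁻¹ := by
  have := hA.image (continuous_inv (G := G))
  rwa [Set.image_inv_eq_inv] at this

/-- the products of members of a family and their inverses -/
def word {ι : Type u} (A : ι → Set G) : List (ι × Bool) → Set G
  | [] => {1}
  | (i, b) :: l => (if b then A i else (A i)⁻¹) * word A l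

theorem kAnalytic_word {ι : Type u} {A : ι → Set G} (hA : ∀ i, KAnalytic (A i))
    (l : List (ι × Bool)) : KAnalytic (word A l) := by
  induction l with
  | nil => exact kAnalytic_of_isCompact isCompact_singleton
  | cons x l ih =>
    obtain ⟨i, b⟩ := x
    refine KAnalytic.mul ?_ ih
    cases b
    · simpa using (hA i).inv
    · simpa using hA i

omit [TopologicalSpace G] [IsTopologicalGroup G] in
theorem iUnion_word {ι : Type u} {A : ι → Set G}
    (hgen : Subgroup.closure (⋃ i, A i) = ⊤) : (⋃ l, word A l) = Set.univ := by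
  rw [eq_univ_iff_forall]
  intro x
  have hx : x ∈ Subgroup.closure (⋃ i, A i) := hgen ▸ Subgroup.mem_top x
  induction hx using Subgroup.closure_induction_left with
  | one => exact mem_iUnion.2 ⟨[], rfl⟩
  | mul_left x hx y _ ih =>
    obtain ⟨i, hi⟩ := mem_iUnion.1 hx
    obtain ⟨l, hl⟩ := mem_iUnion.1 ih
    exact mem_iUnion.2 ⟨(i, true) :: l, Set.mul_mem_mul (by simpa using hi) hl⟩
  | inv_mul_cancel x hx y _ ih =>
    obtain ⟨i, hi⟩ := mem_iUnion.1 hx
    obtain ⟨l, hl⟩ := mem_iUnion.1 ih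
    exact mem_iUnion.2 ⟨(i, false) :: l, Set.mul_mem_mul (by simpa using hi) hl⟩

theorem KAnalytic.narrowS {A : Set G} (hA : KAnalytic A) : NarrowS A := by
  classical
  intro V hV
  obtain ⟨F, hF1, hF2, rfl⟩ := hA
  have hE : ∀ a, ∃ E : Finset G, F a ⊆ ⋃ g ∈ E, {x | g⁻¹ * x ∈ interior V} := by
    intro a
    refine (hF1 a).elim_finite_subcover (fun g : G => {x | g⁻¹ * x ∈ interior V})
      (fun g => isOpen_interior.preimage (continuous_const_mul g⁻¹)) ?_
    intro x _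
    refine mem_iUnion.2 ⟨x, ?_⟩
    have : (1 : G) ∈ interior V := mem_interior_iff_mem_nhds.2 hV
    simpa using this
  choose E hE using hE
  have hopen : ∀ a, IsOpen (⋃ g ∈ E a, {x : G | g⁻¹ * x ∈ interior V}) := fun a =>
    isOpen_biUnion fun g _ => isOpen_interior.preimage (continuous_const_mul g⁻¹)
  obtain ⟨s, hs, hsu⟩ := TopologicalSpace.countable_cover_nhds
    (f := fun a => {b | F b ⊆ ⋃ g ∈ E a, {x : G | g⁻¹ * x ∈ interior V}})
    (fun a => hF2 a _ (hopen a) (hE a))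
  have hc : ({1} ∪ ⋃ a ∈ s, (E a : Set G)).Countable :=
    (countable_singleton 1).union (hs.biUnion fun a _ => (E a).countable_toSet)
  obtain ⟨D, hD⟩ := hc.exists_eq_range ⟨1, Or.inl rfl⟩
  refine ⟨D, fun g hg => ?_⟩
  obtain ⟨b, hb⟩ := mem_iUnion.1 hg
  have hbu : b ∈ ⋃ a ∈ s, {b | F b ⊆ ⋃ g ∈ E a, {x : G | g⁻¹ * x ∈ interior V}} :=
    hsu ▸ Set.mem_univ b
  obtain ⟨a, ha, hba⟩ := mem_iUnion₂.1 hbu
  obtain ⟨q, hq, hqg⟩ := mem_iUnion₂.1 (hba hb)
  have : q ∈ range D := hD ▸ Or.inr (mem_biUnion ha hq)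
  obtain ⟨k, rfl⟩ := this
  exact ⟨k, interior_subset hqg⟩

omit [IsTopologicalGroup G] in
theorem KAnalytic.subgroup {A : Set G} (hA : KAnalytic A) {H : Subgroup G}
    (hAH : A ⊆ (H : Set G)) : KAnalytic ((fun h : H => (h : G)) ⁻¹' A) := by
  obtain ⟨F, hF1, hF2, rfl⟩ := hA
  have hsub : ∀ a, F a ⊆ (H : Set G) := fun a => (subset_iUnion F a).trans hAH
  refine ⟨fun a => (fun h : H => (h : G)) ⁻¹' F a, fun a => ?_, fun a O hO hFO => ?_, ?_⟩
  · have hind : IsInducing (fun h : H => (h : G)) := IsInducing.subtypeVal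
    have hr : F a ⊆ range (fun h : H => (h : G)) := fun x hx => ⟨⟨x, hsub a hx⟩, rfl⟩
    exact (hind.isCompact_preimage_iff hr).2 (hF1 a)
  · obtain ⟨O', hO', rfl⟩ := isOpen_induced_iff.1 hO
    have h1 : F a ⊆ O' := fun x hx => @hFO ⟨x, hsub a hx⟩ hx
    filter_upwards [hF2 a O' hO' h1] with b hb
    exact fun x hx => hb hx
  · rw [preimage_iUnion]

theorem MBS.subgroup {S : Set G} (hS : MBS S) (H : Subgroup G) :
    MBS ((fun h : H => (h : G)) ⁻¹' S) := by
  classical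
  intro V hV
  have h1 : ∀ n, ∃ W ∈ 𝓝 (1 : G), ∀ h : H, (h : G) ∈ W → h ∈ V n := by
    intro n
    have h2 := hV n
    rw [nhds_induced, mem_comap] at h2
    obtain ⟨W, hW, hWV⟩ := h2
    exact ⟨W, hW, fun h hh => hWV hh⟩
  choose W hW hWV using h1
  have h2 : ∀ n, ∃ W' ∈ 𝓝 (1 : G), ∀ a ∈ W', ∀ b ∈ W', a⁻¹ * b ∈ W n := by
    intro n
    obtain ⟨W', hW', h⟩ := exists_nhds_one_split (hW n)
    refine ⟨W' ∩ W'⁻¹, inter_mem hW' (inv_mem_nhds_one G hW'), ?_⟩
    intro a ha b hb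
    exact h _ ha.2 _ hb.1
  choose W' hW' hW'W using h2
  obtain ⟨F, hF⟩ := hS W' hW'
  let r : ℕ → G → H := fun n q => if h : ∃ x : H, q⁻¹ * (x : G) ∈ W' n then h.choose else 1
  have hr : ∀ n q (x : H), q⁻¹ * (x : G) ∈ W' n → q⁻¹ * (r n q : G) ∈ W' n := by
    intro n q x hx
    have h : ∃ x : H, q⁻¹ * (x : G) ∈ W' n := ⟨x, hx⟩
    simp only [r, dif_pos h]
    exact h.choose_spec
  refine ⟨fun n => (F n).image (r n), fun g hg => ?_⟩
  obtain ⟨n, q, hq, hqg⟩ := hF (g : G) hg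
  refine ⟨n, r n q, Finset.mem_image_of_mem _ hq, hWV n _ ?_⟩
  have h3 := hW'W n _ (hr n q g hqg) _ hqg
  have h4 : (q⁻¹ * (r n q : G))⁻¹ * (q⁻¹ * (g : G)) = (((r n q)⁻¹ * g : H) : G) := by
    push_cast
    group
  rwa [h4] at h3

omit [IsTopologicalGroup G] in
theorem RHB.of_subgroup {A : Set G} {H : Subgroup G} (hAH : A ⊆ (H : Set G))
    (h : RHB ((fun h : H => (h : G)) ⁻¹' A)) : RHB A := by
  classical
  intro V hV
  obtain ⟨F, hF⟩ := h (fun n => (fun h : H => (h : G)) ⁻¹' V n) fun n =>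
    (continuous_subtype_val (p := fun x => x ∈ H)).continuousAt (hV n)
  refine ⟨fun n => (F n).image (fun h : H => (h : G)), fun a ha => ?_⟩
  filter_upwards [hF ⟨a, hAH ha⟩ ha] with n hn
  obtain ⟨q, hq, hqa⟩ := hn
  exact ⟨(q : G), Finset.mem_image_of_mem (fun h : H => (h : G)) hq, hqa⟩

/-- The main theorem for one K-analytic set: if `A * A * A` and `A⁻¹ * A⁻¹` are Menger-bounded,
then `A` is Hurewicz-bounded. -/
theorem rel_main {A : Set G} (hA : KAnalytic A) (hM : MBS (A * A * A ∪ A⁻¹ * A⁻¹)) :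
    RHB A := by
  set H := Subgroup.closure A with hH
  have hAH : A ⊆ (H : Set G) := Subgroup.subset_closure
  refine RHB.of_subgroup hAH ?_
  set B : Set H := (fun h : H => (h : G)) ⁻¹' A with hB
  have hBK : KAnalytic B := hA.subgroup hAH
  have hgen : Subgroup.closure (⋃ _ : PUnit, B) = ⊤ := by
    rw [iUnion_const]
    exact Subgroup.closure_closure_coe_preimage
  have hN : Narrow H := by
    apply narrow_of_univ
    rw [← iUnion_word hgen]
    exact NarrowS.iUnion fun l => (kAnalytic_word (fun _ => hBK) l).narrowS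
  refine rel_narrow hN hBK ((hM.subgroup H).mono ?_)
  rintro _ (⟨_, ⟨x, hx, y, hy, rfl⟩, z, hz, rfl⟩ | ⟨x, hx, y, hy, rfl⟩)
  · exact Or.inl ⟨_, ⟨x, hx, y, hy, rfl⟩, z, hz, rfl⟩
  · refine Or.inr ⟨(x : G), ?_, (y : G), ?_, rfl⟩
    · have h : x⁻¹ ∈ B := hx
      simpa [hB] using h
    · have h : y⁻¹ ∈ B := hy
      simpa [hB] using h

theorem rhb_of_generated (hM : MBS (Set.univ : Set G)) {ι : Type u}
    (hι : #ι < Cardinal.lift.{u} bNumber)
    {A : ι → Set G} (hA : ∀ i, KAnalytic (A i)) (hgen : Subgroup.closure (⋃ i, A i) = ⊤) :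
    RHB (Set.univ : Set G) := by
  have hb : ℵ₀ < Cardinal.lift.{u} bNumber := by
    simpa using aleph0_lt_bNumber
  have hcard : #(List (ι × Bool)) < Cardinal.lift.{u} bNumber := by
    refine (Cardinal.mk_list_le_max _).trans_lt (max_lt hb ?_)
    rw [Cardinal.mk_prod]
    refine Cardinal.mul_lt_of_lt hb.le ?_ ?_
    · simpa using hι
    · refine lt_of_le_of_lt ?_ hb
      simp
  rw [← iUnion_word hgen]
  exact RHB.iUnion (narrow_of_univ hM.narrow) (fun h => dominated hcard h)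
    fun l => rel_main (kAnalytic_word hA l) (hM.mono (Set.subset_univ _))

end

end Pool.Agent.Y340.MH
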