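import Mathlib

/-!
K-analytic subsets of separable pseudometrizable spaces are, up to topologically
indistinguishable points, continuous images of the Baire space.
-/

set_option autoImplicit false

open Set Filter Topology Pointwise

namespace Pool.Agent.Y340.MH

universe u

/-- The set `A` is K-analytic: it is the union of the values of an upper semicontinuous
compact-valued map on the Baire space. -/
def KAnalytic {X : Type u} [TopologicalSpace X] (A : Set X) : Prop :=
  ∃ F : (ℕ → ℕ) → Set X, (∀ a, IsCompact (F a)) ∧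
    (∀ a, ∀ O : Set X, IsOpen O → F a ⊆ O → ∀ᶠ b in 𝓝 a, F b ⊆ O) ∧ (⋃ a, F a) = A

theorem KAnalytic.image {X Y : Type u} [TopologicalSpace X] [TopologicalSpace Y] {A : Set X}
    (hA : KAnalytic A) {φ : X → Y} (hφ : Continuous φ) : KAnalytic (φ '' A) := by
  obtain ⟨F, hF1, hF2, rfl⟩ := hA
  refine ⟨fun a => φ '' F a, fun a => (hF1 a).image hφ, fun a O hO hFO => ?_, ?_⟩
  · filter_upwards [hF2 a (φ ⁻¹' O) (hO.preimage hφ) (image_subset_iff.1 hFO)] with b hb
    exact image_subset_iff.2 hb
  · rw [image_iUnion]

theorem KAnalytic.of_le {X : Type u} {t t' : TopologicalSpace X} (h : t ≤ t') {A : Set X}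
    (hA : @KAnalytic X t A) : @KAnalytic X t' A := by
  have := @KAnalytic.image X X t t' A hA id (continuous_id_iff_le.2 h)
  rwa [image_id] at this

/-- continuous images of the Baire space are K-analytic -/
theorem kAnalytic_range {X : Type u} [TopologicalSpace X] {f : (ℕ → ℕ) → X}
    (hf : Continuous f) : KAnalytic (range f) := by
  refine ⟨fun a => {f a}, fun a => isCompact_singleton, fun a O hO hFO => ?_, ?_⟩
  · have : f ⁻¹' O ∈ 𝓝 a := hf.continuousAt (hO.mem_nhds (singleton_subset_iff.1 hFO))
    filter_upwards [this] with b hb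
    exact singleton_subset_iff.2 hb
  · ext x; simp [eq_comm]

/-- compact sets are K-analytic -/
theorem kAnalytic_of_isCompact {X : Type u} [TopologicalSpace X] {K : Set X}
    (hK : IsCompact K) : KAnalytic K :=
  ⟨fun _ => K, fun _ => hK, fun _ _ _ h => Eventually.of_forall fun _ => h, iUnion_const K⟩

theorem KAnalytic.analyticSet {X : Type u} [TopologicalSpace X] [PolishSpace X]
    {A : Set X} (hA : KAnalytic A) : MeasureTheory.AnalyticSet A := by
  obtain ⟨F, hF1, hF2, rfl⟩ := hA
  have hcl : IsClosed {p : (ℕ → ℕ) × X | p.2 ∈ F p.1} := by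
    rw [← isOpen_compl_iff, isOpen_iff_mem_nhds]
    rintro ⟨a, x⟩ hx
    have hx' : x ∉ F a := hx
    obtain ⟨O1, O2, h1, h2, h3, h4, h5⟩ := (hF1 a).separation_of_notMem hx'
    have hU := hF2 a O1 h1 h3
    rw [nhds_prod_eq]
    refine mem_of_superset (prod_mem_prod hU (h2.mem_nhds h4)) ?_
    rintro ⟨b, y⟩ ⟨hb, hy⟩ hmem
    exact (Set.disjoint_left.1 h5) (hb hmem) hy
  have h := (hcl.analyticSet).image_of_continuous (continuous_snd (X := ℕ → ℕ) (Y := X))
  convert h using 1
  ext x
  simp

/-- A nonempty K-analytic subset of a separable pseudometrizable space is, up to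
indistinguishable points, a continuous image of the Baire space. -/
theorem KAnalytic.exists_map {X : Type u} [TopologicalSpace X]
    [TopologicalSpace.PseudoMetrizableSpace X] [TopologicalSpace.SeparableSpace X]
    {A : Set X} (hA : KAnalytic A) (hne : A.Nonempty) :
    ∃ f : (ℕ → ℕ) → X, Continuous f ∧ range f ⊆ A ∧ ∀ a ∈ A, ∃ x, Inseparable (f x) a := by
  let _ := TopologicalSpace.pseudoMetrizableSpacePseudoMetric X
  let ι : X → UniformSpace.Completion X := fun x => (x : UniformSpace.Completion X)
  have hι : IsInducing ι := (UniformSpace.Completion.isUniformInducing_coe X).isInducing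
  have hsep : TopologicalSpace.SeparableSpace (UniformSpace.Completion X) := inferInstance
  have hsc : SecondCountableTopology (UniformSpace.Completion X) :=
    UniformSpace.secondCountable_of_separable _
  have hpol : PolishSpace (UniformSpace.Completion X) := inferInstance
  have han := (hA.image hι.continuous).analyticSet
  rw [MeasureTheory.AnalyticSet] at han
  rcases han with han | ⟨g, hg, hgr⟩
  · exact absurd han (hne.image _).ne_empty
  have hch : ∀ y, ∃ x ∈ A, ι x = g y := by
    intro y
    obtain ⟨x, hxA, hx⟩ : g y ∈ ι '' A := hgr ▸ mem_range_self y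
    exact ⟨x, hxA, hx⟩
  choose f hfA hf using hch
  refine ⟨f, ?_, ?_, ?_⟩
  · rw [hι.continuous_iff]
    exact hg.congr fun y => (hf y).symm
  · rintro _ ⟨y, rfl⟩
    exact hfA y
  · intro a ha
    obtain ⟨x, hx⟩ : ι a ∈ range g := hgr ▸ mem_image_of_mem _ ha
    refine ⟨x, ?_⟩
    rw [← hι.inseparable_iff, hf x, hx]

end Pool.Agent.Y340.MH
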