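import Pool.Agent.H885R3.GrpStratB

/-!
The two fusion arguments of `Pool.Agent.H885R3.GrpStrat` and `Pool.Agent.H885R3.GrpStratB`, with
the information which products of points of the image are used.
-/

set_option autoImplicit false

open Set Filter Topology Pointwise

namespace Pool.Agent.Y340.MH

open Pool.Agent.H885R3

variable {G : Type*} [Group G] [TopologicalSpace G]
variable {U : ℕ → Set G} {f : (ℕ → ℕ) → G} {C : Set (ℕ → ℕ)} {D : ℕ → G}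

omit [Group G] [TopologicalSpace G] in
theorem P_range {t : Node} {x : G} (hx : x ∈ P f C t) : x ∈ range f := by
  obtain ⟨β, -, rfl⟩ := hx
  exact mem_range_self β

theorem stratA' [IsTopologicalGroup G] (hU : Base U) (hf : Continuous f) (hC : IsClosed C)
    (hP : ∀ t : Node, t.1 ∈ C → ¬ TB U (P f C t)) (hD : DenseRange D) {ρ : Node}
    (hρ : ρ.1 ∈ C)
    (hA : ∀ t s : Node, t.1 ∈ C → s.1 ∈ C → Below ρ t → Below ρ s →
      ∃ t' s' : Node, t'.1 ∈ C ∧ s'.1 ∈ C ∧ Below t t' ∧ Below s s' ∧ AA U f C t' s') :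
    ∃ b₀ : ℕ, ∀ H : ℕ → Finset G, ∃ g ∈ range f * range f * range f,
      ∀ n, b₀ ≤ n → Good U D H n g := by
  classical
  obtain ⟨mz, χ, hχP, hχsep⟩ := exists_separated hU (hP ρ hρ)
  set q := f ρ.1 * f ρ.1 with hq
  obtain ⟨j, hj⟩ := hD.exists_mem_open (s := interior {a | Cl U (mz + 6) (q⁻¹) a})
    isOpen_interior ⟨q⁻¹, mem_interior_iff_mem_nhds.2 (hU.nhds_cl (mz + 6) _)⟩
  have hj' : D j ∈ {a | Cl U (mz + 6) q⁻¹ a} := interior_subset hj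
  have hqj : Cl U (mz + 6) 1 (q * D j) := by
    have h2 := (Base.cl_left (U := U) (n := mz + 6) q).2 hj'
    simpa using h2
  have hW0 : {g | Cl U (mz + 3) 1 (g * D j)} ∈ 𝓝 q := by
    have hcont : Tendsto (fun g : G => g * D j) (𝓝 q) (𝓝 (q * D j)) :=
      (continuous_id.mul continuous_const).tendsto _
    filter_upwards [hcont (hU.nhds_cl (mz + 4) (q * D j))] with g hg
    exact hU.cl_trans (hU.cl_mono (by omega) hqj) hg
  have hmul : Tendsto (fun q : G × G => q.1 * q.2) (𝓝 (f ρ.1) ×ˢ 𝓝 (f ρ.1)) (𝓝 q) := by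
    rw [← nhds_prod_eq]
    exact continuous_mul.tendsto _
  obtain ⟨W1, hW1, W2, hW2, hW12⟩ := mem_prod_iff.1 (hmul hW0)
  obtain ⟨k, hk, hkW⟩ := near (C := C) hf (inter_mem hW1 hW2) ρ.2
  have hBρ : Below ρ (ρ.1, k) := ⟨hk, fun _ _ => rfl⟩
  refine ⟨max j (mz + 2), fun H => ?_⟩
  have hR0 : Ready U f C D H (ρ.1, k) (ρ.1, k) ρ (max j (mz + 2)) := by
    refine ready_of hU hf (b' := max j (mz + 2)) (j := j) hχP hχsep
      (infinite_univ (α := ℕ)) (le_max_left _ _) (le_max_right _ _) ?_ ?_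
    · intro y hy x hx
      have : (y, x) ∈ W1 ×ˢ W2 := ⟨(hkW hy).1, (hkW hx).2⟩
      exact hW12 this
    · intro L _
      exact ⟨univ, univ_mem, fun z _ y _ x _ n h1 h2 => absurd h2 (not_lt.2 h1)⟩
  let S := {s : Node × Node × Node × ℕ // s.1.1 ∈ C ∧ s.2.1.1 ∈ C ∧ s.2.2.1.1 ∈ C ∧
    Below ρ s.1 ∧ Below ρ s.2.1 ∧ Ready U f C D H s.1 s.2.1 s.2.2.1 s.2.2.2}
  have hstep : ∀ s : S, ∃ s' : S, Below s.1.1 s'.1.1 ∧ Below s.1.2.1 s'.1.2.1 ∧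
      Below s.1.2.2.1 s'.1.2.2.1 ∧ s.1.1.2 < s'.1.1.2 ∧ s.1.2.1.2 < s'.1.2.1.2 ∧
      s.1.2.2.1.2 < s'.1.2.2.1.2 ∧ s.1.2.2.2 < s'.1.2.2.2 ∧
      ∀ z ∈ P f C s'.1.2.2.1, ∀ y ∈ P f C s'.1.2.1, ∀ x ∈ P f C s'.1.1,
        ∀ n, s.1.2.2.2 ≤ n → n ≤ s'.1.2.2.2 → Good U D H n (z * y * x) := by
    rintro ⟨⟨X, Y, Z, b⟩, hX, hY, hZ, hρX, hρY, hR⟩
    obtain ⟨X', Y', Z', b', h1, h2, h3, h4, h5, h6, h7, h8, h9, h10, h11, h12⟩ :=
      stepA hU hf hP hD hA H hX hY hρX hρY hR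
    exact ⟨⟨⟨X', Y', Z', b'⟩, h1, h2, h3, hρX.trans h4, hρY.trans h5, h11⟩, h4, h5, h6,
      h7, h8, h9, h10, h12⟩
  choose nxt hnxt using hstep
  let s0 : S := ⟨((ρ.1, k), (ρ.1, k), ρ, max j (mz + 2)), hρ, hρ, hρ, hBρ, hBρ, hR0⟩
  let s : ℕ → S := fun i => Nat.rec s0 (fun _ => nxt) i
  have hs : ∀ i, s (i + 1) = nxt (s i) := fun i => rfl
  obtain ⟨x, hx⟩ := fusion (f := f) hC (fun i => (s i).1.1) (fun i => (s i).2.1)
    (fun i => (hnxt (s i)).1) (fun i => (hnxt (s i)).2.2.2.1)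
  obtain ⟨y, hy⟩ := fusion (f := f) hC (fun i => (s i).1.2.1) (fun i => (s i).2.2.1)
    (fun i => (hnxt (s i)).2.1) (fun i => (hnxt (s i)).2.2.2.2.1)
  obtain ⟨z, hz⟩ := fusion (f := f) hC (fun i => (s i).1.2.2.1) (fun i => (s i).2.2.2.1)
    (fun i => (hnxt (s i)).2.2.1) (fun i => (hnxt (s i)).2.2.2.2.2.1)
  refine ⟨z * y * x, Set.mul_mem_mul (Set.mul_mem_mul (P_range (hz 0)) (P_range (hy 0)))
    (P_range (hx 0)), fun n hn => ?_⟩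
  have hb : ∀ i, (s i).1.2.2.2 < (s (i + 1)).1.2.2.2 := fun i =>
    (hnxt (s i)).2.2.2.2.2.2.1
  have hb' : ∀ i, i ≤ (s i).1.2.2.2 := by
    intro i
    induction i with
    | zero => exact Nat.zero_le _
    | succ i ih => exact Nat.succ_le_of_lt (lt_of_le_of_lt ih (hb i))
  have hex : ∃ i, n ≤ (s (i + 1)).1.2.2.2 := ⟨n, (Nat.le_succ n).trans (hb' (n + 1))⟩
  have hlow : (s (Nat.find hex)).1.2.2.2 ≤ n := by
    rcases Nat.eq_zero_or_pos (Nat.find hex) with h0 | hpos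
    · rw [h0]; exact hn
    · have := Nat.find_min hex (m := Nat.find hex - 1) (by omega)
      have he : Nat.find hex - 1 + 1 = Nat.find hex := by omega
      rw [he] at this
      omega
  have hx' := hx (Nat.find hex + 1)
  have hy' := hy (Nat.find hex + 1)
  have hz' := hz (Nat.find hex + 1)
  have hup := Nat.find_spec hex
  rw [hs] at hx' hy' hz' hup
  exact (hnxt (s (Nat.find hex))).2.2.2.2.2.2.2 z hz' y hy' x hx' n hlow hup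

theorem stratB' [IsTopologicalGroup G] (hU : Base U) (hf : Continuous f) (hC : IsClosed C)
    (hP : ∀ t : Node, t.1 ∈ C → ¬ TB U (P f C t)) {X₀ Y₀ : Node} (hX₀ : X₀.1 ∈ C)
    (hY₀ : Y₀.1 ∈ C)
    (hB : ∀ t s : Node, t.1 ∈ C → s.1 ∈ C → Below X₀ t → Below Y₀ s → ¬ AA U f C t s)
    (hinv : ∀ s : Node, s.1 ∈ C → Below Y₀ s → ¬ TB U ((fun g : G => g⁻¹) '' P f C s)) :
    ∃ b₀ : ℕ, ∀ H : ℕ → Finset G, ∃ g ∈ (range f)⁻¹ * (range f)⁻¹,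
      ∀ n, b₀ ≤ n → ∀ p ∈ H n, ¬ Cl U n p g := by
  classical
  obtain ⟨b₀, hR0⟩ := exists_prog hU (hinv Y₀ hY₀ (Below.refl _))
  refine ⟨b₀, fun H => ?_⟩
  let S := {s : Node × Node × ℕ // s.1.1 ∈ C ∧ s.2.1.1 ∈ C ∧
    Below X₀ s.1 ∧ Below Y₀ s.2.1 ∧ Prog U f C s.2.1 s.2.2}
  have hstep : ∀ s : S, ∃ s' : S, Below s.1.1 s'.1.1 ∧ Below s.1.2.1 s'.1.2.1 ∧
      s.1.1.2 < s'.1.1.2 ∧ s.1.2.1.2 < s'.1.2.1.2 ∧ s.1.2.2 < s'.1.2.2 ∧
      ∀ y ∈ P f C s'.1.2.1, ∀ x ∈ P f C s'.1.1,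
        ∀ n, s.1.2.2 ≤ n → n ≤ s'.1.2.2 → ∀ p ∈ H n, ¬ Cl U n p (x⁻¹ * y⁻¹) := by
    rintro ⟨⟨X, Y, b⟩, hX, hY, hρX, hρY, hR⟩
    obtain ⟨X', Y', b', h1, h2, h4, h5, h7, h8, h10, h11, h12⟩ :=
      stepB hU hf hP hB hinv H hX hY hρX hρY hR
    exact ⟨⟨⟨X', Y', b'⟩, h1, h2, hρX.trans h4, hρY.trans h5, h11⟩, h4, h5,
      h7, h8, h10, h12⟩
  choose nxt hnxt using hstep
  let s0 : S := ⟨(X₀, Y₀, b₀), hX₀, hY₀, Below.refl _, Below.refl _, hR0⟩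
  let s : ℕ → S := fun i => Nat.rec s0 (fun _ => nxt) i
  have hs : ∀ i, s (i + 1) = nxt (s i) := fun i => rfl
  obtain ⟨x, hx⟩ := fusion (f := f) hC (fun i => (s i).1.1) (fun i => (s i).2.1)
    (fun i => (hnxt (s i)).1) (fun i => (hnxt (s i)).2.2.1)
  obtain ⟨y, hy⟩ := fusion (f := f) hC (fun i => (s i).1.2.1) (fun i => (s i).2.2.1)
    (fun i => (hnxt (s i)).2.1) (fun i => (hnxt (s i)).2.2.2.1)
  refine ⟨x⁻¹ * y⁻¹, Set.mul_mem_mul (Set.inv_mem_inv.2 (P_range (hx 0)))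
    (Set.inv_mem_inv.2 (P_range (hy 0))), fun n hn => ?_⟩
  have hb : ∀ i, (s i).1.2.2 < (s (i + 1)).1.2.2 := fun i =>
    (hnxt (s i)).2.2.2.2.1
  have hb' : ∀ i, i ≤ (s i).1.2.2 := by
    intro i
    induction i with
    | zero => exact Nat.zero_le _
    | succ i ih => exact Nat.succ_le_of_lt (lt_of_le_of_lt ih (hb i))
  have hex : ∃ i, n ≤ (s (i + 1)).1.2.2 := ⟨n, (Nat.le_succ n).trans (hb' (n + 1))⟩
  have hlow : (s (Nat.find hex)).1.2.2 ≤ n := by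
    rcases Nat.eq_zero_or_pos (Nat.find hex) with h0 | hpos
    · rw [h0]; exact hn
    · have := Nat.find_min hex (m := Nat.find hex - 1) (by omega)
      have he : Nat.find hex - 1 + 1 = Nat.find hex := by omega
      rw [he] at this
      omega
  have hx' := hx (Nat.find hex + 1)
  have hy' := hy (Nat.find hex + 1)
  have hup := Nat.find_spec hex
  rw [hs] at hx' hy' hup
  exact (hnxt (s (Nat.find hex))).2.2.2.2.2 y hy' x hx' n hlow hup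

/-- Key theorem. -/
theorem key' [IsTopologicalGroup G] (hU : Base U) (hf : Continuous f) (hC : IsClosed C)
    (hne : C.Nonempty) (hP : ∀ t : Node, t.1 ∈ C → ¬ TB U (P f C t)) (hD : DenseRange D) :
    ∃ b₀ : ℕ, ∀ H : ℕ → Finset G,
      ∃ g ∈ range f * range f * range f ∪ (range f)⁻¹ * (range f)⁻¹,
        ∀ n, b₀ ≤ n → Good U D H n g := by
  classical
  by_cases hA : ∃ ρ : Node, ρ.1 ∈ C ∧ ∀ t s : Node, t.1 ∈ C → s.1 ∈ C → Below ρ t →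
      Below ρ s → ∃ t' s' : Node, t'.1 ∈ C ∧ s'.1 ∈ C ∧ Below t t' ∧ Below s s' ∧
        AA U f C t' s'
  · obtain ⟨ρ, hρ, hA⟩ := hA
    obtain ⟨b₀, hb₀⟩ := stratA' hU hf hC hP hD hρ hA
    refine ⟨b₀, fun H => ?_⟩
    obtain ⟨g, hg, hg'⟩ := hb₀ H
    exact ⟨g, Or.inl hg, hg'⟩
  · have hs1 : ∃ ρ : Node, ρ.1 ∈ C ∧ ∀ s : Node, s.1 ∈ C → Below ρ s →
        ¬ TB U ((fun g : G => g⁻¹) '' P f C s) := by
      by_contra hcon
      push Not at hcon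
      obtain ⟨α, hα⟩ := hne
      refine hA ⟨(α, 0), hα, fun t s ht hs _ _ => ?_⟩
      obtain ⟨t', ht', htt', hTB⟩ := hcon t ht
      refine ⟨t', s, ht', hs, htt', Below.refl _, ?_⟩
      obtain ⟨m, φ, h1, h2⟩ := exists_separated hU (hP t' ht')
      refine ⟨m, φ, h1, h2, fun m' => ⟨f s.1, ⟨s.1, ⟨hs, fun _ _ => rfl⟩, rfl⟩, ?_⟩⟩
      obtain ⟨F, hF⟩ := hTB.mul_right hU (f s.1)⁻¹ m'
      by_contra hc
      push Not at hc
      have hfin : (⋃ q ∈ F, {N | Cl U m' q ((φ N)⁻¹ * (f s.1)⁻¹)}).Finite :=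
        F.finite_toSet.biUnion fun q _ => hc q
      refine (infinite_univ (α := ℕ)) (hfin.subset fun N _ => ?_)
      obtain ⟨q, hq, hqN⟩ := hF (φ N)⁻¹ ⟨φ N, h1 N, rfl⟩
      exact mem_biUnion (Finset.mem_coe.2 hq) hqN
    obtain ⟨ρ, hρ, hinv⟩ := hs1
    have hA' : ∃ t s : Node, t.1 ∈ C ∧ s.1 ∈ C ∧ Below ρ t ∧ Below ρ s ∧
        ∀ t' s' : Node, t'.1 ∈ C → s'.1 ∈ C → Below t t' → Below s s' →
          ¬ AA U f C t' s' := by
      by_contra hcon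
      push Not at hcon
      refine hA ⟨ρ, hρ, fun t s ht hs h1 h2 => ?_⟩
      exact hcon t s ht hs h1 h2
    obtain ⟨t, s, ht, hs, hρt, hρs, hB⟩ := hA'
    obtain ⟨b₀, hb₀⟩ := stratB' hU hf hC hP ht hs hB
      (fun s' hs' hss' => hinv s' hs' (hρs.trans hss'))
    refine ⟨b₀, fun H => ?_⟩
    obtain ⟨g, hgm, hg⟩ := hb₀ H
    refine ⟨g, Or.inr hgm, fun n hn => ⟨1, Or.inl rfl, fun p hp => ?_⟩⟩
    rw [mul_one]
    exact hg n hn p hp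


end Pool.Agent.Y340.MH
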