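import Pool.Agent.Y340.MH.Coarse
import Pool.Agent.Y340.MH.KAn
import Pool.Agent.Y340.MH.Key

/-!
K-analytic sets and Hurewicz-boundedness in `ω`-narrow topological groups.
-/

set_option autoImplicit false

open Set Filter Topology Pointwise

namespace Pool.Agent.Y340.MH

open Pool.Agent.H885R3

universe u

/-- `S` is Menger-bounded in `G`. -/
def MBS {G : Type u} [Group G] [TopologicalSpace G] (S : Set G) : Prop :=
  ∀ V : ℕ → Set G, (∀ n, V n ∈ 𝓝 (1 : G)) →
    ∃ F : ℕ → Finset G, ∀ g ∈ S, ∃ n, ∃ q ∈ F n, q⁻¹ * g ∈ V n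

/-- `A` is Hurewicz-bounded in `G`. -/
def RHB {G : Type u} [Group G] [TopologicalSpace G] (A : Set G) : Prop :=
  ∀ V : ℕ → Set G, (∀ n, V n ∈ 𝓝 (1 : G)) →
    ∃ F : ℕ → Finset G, ∀ a ∈ A, ∀ᶠ n in atTop, ∃ q ∈ F n, q⁻¹ * a ∈ V n

/-- `S` is covered by countably many translates of every neighbourhood of the identity. -/
def NarrowS {G : Type u} [Group G] [TopologicalSpace G] (S : Set G) : Prop :=
  ∀ V ∈ 𝓝 (1 : G), ∃ D : ℕ → G, ∀ g ∈ S, ∃ k, (D k)⁻¹ * g ∈ V

section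

variable {G : Type u} [Group G] [TopologicalSpace G]

theorem MBS.mono {S T : Set G} (h : MBS T) (hST : S ⊆ T) : MBS S := by
  intro V hV
  obtain ⟨F, hF⟩ := h V hV
  exact ⟨F, fun g hg => hF g (hST hg)⟩

theorem MBS.narrow {S : Set G} (h : MBS S) : NarrowS S := by
  classical
  intro V hV
  obtain ⟨F, hF⟩ := h (fun _ => V) fun _ => hV
  have hc : ({1} ∪ ⋃ n, (F n : Set G)).Countable :=
    (countable_singleton 1).union (countable_iUnion fun n => (F n).countable_toSet)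
  obtain ⟨D, hD⟩ := hc.exists_eq_range ⟨1, Or.inl rfl⟩
  refine ⟨D, fun g hg => ?_⟩
  obtain ⟨n, q, hq, hqg⟩ := hF g hg
  have : q ∈ range D := hD ▸ Or.inr (mem_iUnion.2 ⟨n, hq⟩)
  obtain ⟨k, rfl⟩ := this
  exact ⟨k, hqg⟩

theorem narrow_of_univ (h : NarrowS (univ : Set G)) : Narrow G := by
  intro V hV
  obtain ⟨D, hD⟩ := h V hV
  exact ⟨D, fun g => hD g (mem_univ g)⟩

theorem NarrowS.iUnion {ι : Type*} [Countable ι] {S : ι → Set G} (h : ∀ i, NarrowS (S i)) :
    NarrowS (⋃ i, S i) := by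
  intro V hV
  choose D hD using fun i => h i V hV
  have hc : ({1} ∪ range fun p : ι × ℕ => D p.1 p.2).Countable :=
    (countable_singleton 1).union (countable_range _)
  obtain ⟨E, hE⟩ := hc.exists_eq_range ⟨1, Or.inl rfl⟩
  refine ⟨E, fun g hg => ?_⟩
  obtain ⟨i, hi⟩ := mem_iUnion.1 hg
  obtain ⟨k, hk⟩ := hD i g hi
  have : D i k ∈ range E := hE ▸ Or.inr ⟨(i, k), rfl⟩
  obtain ⟨l, hl⟩ := this
  exact ⟨l, by rwa [hl]⟩

theorem separable_of_narrow [IsTopologicalGroup G] {U : ℕ → Set G} (hU : Base U)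
    (hN : Narrow G) : TopologicalSpace.SeparableSpace G := by
  choose D hD using fun n => hN (U n) (hU.nhds n)
  refine ⟨range (fun p : ℕ × ℕ => D p.1 p.2), countable_range _, ?_⟩
  intro x
  rw [mem_closure_iff_nhds]
  intro O hO
  have h1 : (fun u => x * u) ⁻¹' O ∈ 𝓝 (1 : G) := by
    have : Tendsto (fun u : G => x * u) (𝓝 1) (𝓝 x) := by
      have := (continuous_const_mul x).tendsto (1 : G)
      simpa using this
    exact this hO
  obtain ⟨n, hn⟩ := hU.small _ h1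
  obtain ⟨k, hk⟩ := hD n x
  refine ⟨D n k, ?_, ⟨(n, k), rfl⟩⟩
  have h2 := hn (hU.inv n _ hk)
  have h3 : x * ((D n k)⁻¹ * x)⁻¹ ∈ O := h2
  have h4 : x * ((D n k)⁻¹ * x)⁻¹ = D n k := by group
  rwa [h4] at h3

theorem rel_first [IsTopologicalGroup G] {U : ℕ → Set G} (hU : Base U)
    [TopologicalSpace.SeparableSpace G] {f : (ℕ → ℕ) → G} (hf : Continuous f)
    (hM : MBS (range f * range f * range f ∪ (range f)⁻¹ * (range f)⁻¹)) :
    HB U (range f) := by
  classical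
  by_contra hcon
  obtain ⟨C, hC, hne, hP⟩ := exists_C hcon
  have hG : Nonempty G := ⟨1⟩
  obtain ⟨b₀, hb₀⟩ := key' hU hf hC hne hP (TopologicalSpace.denseRange_denseSeq G)
  set D := TopologicalSpace.denseSeq G with hDdef
  let T : ℕ → Finset G := fun n => insert 1 ((Finset.range (n + 1)).image D)
  have hT : ∀ n v, (v = 1 ∨ ∃ j ≤ n, v = D j) → v ∈ T n := by
    rintro n v (rfl | ⟨j, hj, rfl⟩)
    · exact Finset.mem_insert_self _ _
    · exact Finset.mem_insert_of_mem (Finset.mem_image_of_mem _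
        (Finset.mem_range.2 (by omega)))
  have hV : ∀ n, ∃ V : Set G, V ∈ 𝓝 (1 : G) ∧
      ∀ u ∈ V, ∀ v ∈ T (n + b₀), Cl U (n + b₀) v (u * v) := by
    intro n
    have hmem : (⋂ v ∈ T (n + b₀), {u : G | Cl U (n + b₀) v (u * v)}) ∈ 𝓝 (1 : G) := by
      refine (Filter.biInter_finset_mem _).2 fun v _ => ?_
      have hcont : Tendsto (fun u : G => u * v) (𝓝 1) (𝓝 (1 * v)) :=
        (continuous_id.mul continuous_const).tendsto _
      rw [one_mul] at hcont
      exact hcont (hU.nhds_cl (n + b₀) v)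
    exact ⟨_, hmem, fun u hu v hv => mem_iInter₂.1 hu v hv⟩
  choose V hV1 hVT using hV
  obtain ⟨F, hF⟩ := hM V hV1
  let H : ℕ → Finset G := fun n => (F (n - b₀)).biUnion fun q => (T n).image fun v => q * v
  obtain ⟨g, hgm, hg⟩ := hb₀ H
  obtain ⟨n, q, hq, hqg⟩ := hF g hgm
  obtain ⟨v, hv, hvp⟩ := hg (n + b₀) (Nat.le_add_left _ _)
  have hvT := hT _ _ hv
  refine hvp (q * v) ?_ ?_
  · simp only [H]
    rw [Nat.add_sub_cancel]
    exact Finset.mem_biUnion.2 ⟨q, hq, Finset.mem_image_of_mem _ hvT⟩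
  · have h1 := hVT n _ hqg v hvT
    have h2 := (Base.cl_left (U := U) (n := n + b₀) q).2 h1
    simpa [mul_assoc] using h2

theorem pseudoMetrizable [IsTopologicalGroup G] [FirstCountableTopology G] :
    TopologicalSpace.PseudoMetrizableSpace G := by
  let _ := IsTopologicalGroup.rightUniformSpace G
  have : (uniformity G).IsCountablyGenerated := by
    rw [uniformity_eq_comap_nhds_one']
    infer_instance
  infer_instance

theorem rel_fc [IsTopologicalGroup G] [FirstCountableTopology G] (hN : Narrow G) {A : Set G}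
    (hA : KAnalytic A) (hM : MBS (A * A * A ∪ A⁻¹ * A⁻¹)) : RHB A := by
  intro V hV
  rcases A.eq_empty_or_nonempty with rfl | hne
  · exact ⟨fun _ => ∅, by simp⟩
  obtain ⟨U, hU⟩ := exists_base (G := G)
  have := separable_of_narrow hU hN
  have := pseudoMetrizable (G := G)
  obtain ⟨f, hf, hfr, hfA⟩ := hA.exists_map hne
  have hHB := rel_first hU hf (hM.mono (union_subset_union
    (Set.mul_subset_mul (Set.mul_subset_mul hfr hfr) hfr)
    (Set.mul_subset_mul (Set.inv_subset_inv.2 hfr) (Set.inv_subset_inv.2 hfr))))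
  choose v hv using fun n => hU.small (V n) (hV n)
  obtain ⟨F, hF⟩ := hHB fun n => v n + 1
  refine ⟨F, fun a ha => ?_⟩
  obtain ⟨x, hx⟩ := hfA a ha
  filter_upwards [hF (f x) (mem_range_self x)] with n hn
  obtain ⟨q, hq, hqx⟩ := hn
  refine ⟨q, hq, hv n ?_⟩
  have h1 : {b | Cl U (v n + 1) (f x) b} ∈ 𝓝 (f x) := hU.nhds_cl _ _
  have h2 : {b | Cl U (v n + 1) (f x) b} ∈ 𝓝 a := by rwa [← hx]
  have h3 : a ∈ {b | Cl U (v n + 1) (f x) b} := mem_of_mem_nhds h2
  exact hU.cl_trans hqx h3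

end

/-- The theorem for `ω`-narrow groups. -/
theorem rel_narrow {G : Type u} [Group G] [t : TopologicalSpace G] [IsTopologicalGroup G]
    (hN : Narrow G) {A : Set G} (hA : KAnalytic A) (hM : MBS (A * A * A ∪ A⁻¹ * A⁻¹)) :
    RHB A := by
  intro V hV
  obtain ⟨τ, hgrp, hfc, hle, hVτ⟩ := coarse G hN V hV
  have hNτ : @Narrow G _ τ := fun W hW => hN W (nhds_mono hle hW)
  have hMτ : @MBS G _ τ (A * A * A ∪ A⁻¹ * A⁻¹) :=
    fun W hW => hM W fun n => nhds_mono hle (hW n)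
  exact @rel_fc G _ τ hgrp hfc hNτ A (hA.of_le hle) hMτ V hVτ

/-- A union of few Hurewicz-bounded subsets of an `ω`-narrow group is Hurewicz-bounded. -/
theorem RHB.iUnion {G : Type u} [Group G] [TopologicalSpace G] [IsTopologicalGroup G]
    (hN : Narrow G) {ι : Type*}
    (hι : ∀ h : ι → ℕ → ℕ, ∃ k : ℕ → ℕ, ∀ i, ∀ᶠ n in atTop, h i n ≤ k n)
    {A : ι → Set G} (hA : ∀ i, RHB (A i)) : RHB (⋃ i, A i) := by
  classical
  intro V hV
  have hsplit : ∀ n, ∃ W ∈ 𝓝 (1 : G), ∀ a ∈ W, ∀ b ∈ W, a * b ∈ V n := fun n =>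
    exists_nhds_one_split (hV n)
  choose W hW hWV using hsplit
  choose D hD using fun n => hN (W n) (hW n)
  choose idx hidx using hD
  choose F hF using fun i => hA i W hW
  obtain ⟨k, hk⟩ := hι fun i n => (F i n).sup fun q => idx n q
  refine ⟨fun n => (Finset.range (k n + 1)).image (D n), fun a ha => ?_⟩
  obtain ⟨i, hi⟩ := mem_iUnion.1 ha
  filter_upwards [hF i a hi, hk i] with n hn hkn
  obtain ⟨q, hq, hqa⟩ := hn
  refine ⟨D n (idx n q), Finset.mem_image_of_mem _ (Finset.mem_range.2 ?_), ?_⟩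
  · have : idx n q ≤ (F i n).sup fun q => idx n q := Finset.le_sup (f := fun q => idx n q) hq
    omega
  · have h1 := hWV n _ (hidx n q) _ hqa
    simpa [mul_assoc] using h1

end Pool.Agent.Y340.MH
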